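import Pool.Agent.H94.PP.Defs
import Pool.Agent.H65.AF.ACube

/-!
helper4 (project MP_28250c_PP, block G): the action of the functions of bounded degree on a graded module.
-/

set_option autoImplicit false
open Finset

namespace PPh.GA

open ACpFrege PPh

variable {K : Type} [Field K] {E : Type} [AddCommGroup E] [Module K E] {n : ℕ}

theorem hact_add (g : Gm K E n) (a : ℕ) (f h : Pt n → K) : g.hact a (f + h) = g.hact a f + g.hact a h := by
  unfold Gm.hact
  rw [← Finset.sum_add_distrib]
  refine Finset.sum_congr rfl fun S _ => ?_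
  by_cases hS : S.card ≤ a
  · rw [if_pos hS, if_pos hS, if_pos hS, cf_add, add_smul]
  · rw [if_neg hS, if_neg hS, if_neg hS, add_zero]

theorem hact_smul (g : Gm K E n) (a : ℕ) (c : K) (f : Pt n → K) : g.hact a (c • f) = c • g.hact a f := by
  unfold Gm.hact
  rw [Finset.smul_sum]
  refine Finset.sum_congr rfl fun S _ => ?_
  by_cases hS : S.card ≤ a
  · rw [if_pos hS, if_pos hS, cf_smul, mul_smul]
  · rw [if_neg hS, if_neg hS, smul_zero]

theorem hact_sub (g : Gm K E n) (a : ℕ) (f h : Pt n → K) : g.hact a (f - h) = g.hact a f - g.hact a h := by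
  have e : f - h = f + (-1 : K) • h := by rw [neg_one_smul, sub_eq_add_neg]
  rw [e, hact_add, hact_smul, neg_one_smul, ← sub_eq_add_neg]

theorem hact_neg (g : Gm K E n) (a : ℕ) (f : Pt n → K) : g.hact a (-f) = -g.hact a f := by
  have e : -f = (-1 : K) • f := by rw [neg_one_smul]
  rw [e, hact_smul, neg_one_smul]

theorem hact_zero (g : Gm K E n) (a : ℕ) : g.hact a (0 : Pt n → K) = 0 := by
  have e : (0 : Pt n → K) = (0 : K) • (0 : Pt n → K) := by rw [zero_smul]
  rw [e, hact_smul, zero_smul]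

theorem hact_sum (g : Gm K E n) (a : ℕ) {ι : Type} (J : Finset ι) (F : ι → Pt n → K) :
    g.hact a (∑ i ∈ J, F i) = ∑ i ∈ J, g.hact a (F i) := by
  classical
  refine Finset.induction_on J ?_ ?_
  · rw [Finset.sum_empty, Finset.sum_empty, hact_zero]
  · intro i J hi ih
    rw [Finset.sum_insert hi, Finset.sum_insert hi, hact_add, ih]

theorem hact_mono (g : Gm K E n) {a : ℕ} (S : Finset (Fin n)) (h : S.card ≤ a) :
    g.hact a (mono K S) = g.J ^ (a - S.card) * g.XS S := by
  unfold Gm.hact
  rw [Finset.sum_eq_single S]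
  · rw [if_pos h, cf_mono, if_pos rfl, one_smul]
  · intro T _ hT
    rw [cf_mono, if_neg hT, zero_smul, ite_self]
  · intro h
    exact absurd (Finset.mem_univ S) h

theorem XS_empty (g : Gm K E n) : g.XS ∅ = 1 := by
  unfold Gm.XS
  rw [Finset.sort_empty]
  rfl

theorem XS_single (g : Gm K E n) (i : Fin n) : g.XS {i} = g.X i := by
  unfold Gm.XS
  rw [Finset.sort_singleton]
  simp

theorem hact_one (g : Gm K E n) (a : ℕ) : g.hact a (1 : Pt n → K) = g.J ^ a := by
  rw [← mono_empty, hact_mono g ∅ (by simp), XS_empty, mul_one, Finset.card_empty, Nat.sub_zero]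

theorem hact_var (g : Gm K E n) (i : Fin n) : g.hact 1 (mono K {i}) = g.X i := by
  rw [hact_mono g {i} (by simp), XS_single, Finset.card_singleton, Nat.sub_self, pow_zero, one_mul]

theorem J_X (g : Gm K E n) (i : Fin n) : g.J * g.X i = g.X i * g.J := LinearMap.ext fun m => g.commJ i m

theorem X_X (g : Gm K E n) (i i' : Fin n) : g.X i * g.X i' = g.X i' * g.X i := LinearMap.ext fun m => g.comm i i' m

theorem X_idem (g : Gm K E n) (i : Fin n) : g.X i * g.X i = g.J * g.X i := LinearMap.ext fun m => g.idem i m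

theorem J_XS (g : Gm K E n) (S : Finset (Fin n)) : g.J * g.XS S = g.XS S * g.J := by
  unfold Gm.XS
  induction (S.sort (· ≤ ·)) with
  | nil => simp
  | cons a l ih =>
    rw [List.map_cons, List.prod_cons, ← mul_assoc, J_X, mul_assoc, ih, mul_assoc]

theorem Jk_XS (g : Gm K E n) (k : ℕ) (S : Finset (Fin n)) : g.J ^ k * g.XS S = g.XS S * g.J ^ k := by
  induction k with
  | zero => simp
  | succ k ih => rw [pow_succ, mul_assoc, J_XS, ← mul_assoc, ih, mul_assoc]

private theorem perm_prod (g : Gm K E n) {l l' : List (Fin n)} (hp : l.Perm l') : (l.map g.X).prod = (l'.map g.X).prod := by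
  induction hp with
  | nil => rfl
  | cons a hp ih => rw [List.map_cons, List.prod_cons, List.map_cons, List.prod_cons, ih]
  | swap a b l =>
    simp only [List.map_cons, List.prod_cons]
    rw [← mul_assoc, X_X, mul_assoc]
  | trans h1 h2 ih1 ih2 => rw [ih1, ih2]

theorem X_XS_insert (g : Gm K E n) (i : Fin n) (S : Finset (Fin n)) (hi : i ∉ S) :
    g.X i * g.XS S = g.XS (insert i S) := by
  have hp : (i :: S.sort (· ≤ ·)).Perm ((insert i S).sort (· ≤ ·)) := by
    rw [List.perm_ext_iff_of_nodup]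
    · intro a
      rw [List.mem_cons, Finset.mem_sort, Finset.mem_sort, Finset.mem_insert]
    · rw [List.nodup_cons]
      exact ⟨by rw [Finset.mem_sort]; exact hi, Finset.sort_nodup _ _⟩
    · exact Finset.sort_nodup _ _
  have h1 := perm_prod g hp
  rw [List.map_cons, List.prod_cons] at h1
  exact h1

theorem X_XS_mem (g : Gm K E n) (i : Fin n) (S : Finset (Fin n)) (hi : i ∈ S) : g.X i * g.XS S = g.J * g.XS S := by
  have h1 := X_XS_insert g i (S.erase i) (Finset.notMem_erase i S)
  rw [Finset.insert_erase hi] at h1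
  rw [← h1, ← mul_assoc, X_idem, mul_assoc]

theorem XS_XS (g : Gm K E n) (S T : Finset (Fin n)) : g.XS S * g.XS T = g.J ^ (S ∩ T).card * g.XS (S ∪ T) := by
  classical
  refine Finset.induction_on S ?_ ?_
  · rw [XS_empty, Finset.empty_inter, Finset.empty_union]
    simp
  · intro a S ha ih
    rw [← X_XS_insert g a S ha, mul_assoc, ih, ← mul_assoc]
    have hc : g.X a * g.J ^ (S ∩ T).card = g.J ^ (S ∩ T).card * g.X a := by
      have := Jk_XS g (S ∩ T).card {a}
      rw [XS_single] at this
      exact this.symm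
    rw [hc, mul_assoc]
    by_cases haT : a ∈ T
    · rw [X_XS_mem g a (S ∪ T) (Finset.mem_union_right _ haT)]
      have e1 : insert a S ∩ T = insert a (S ∩ T) := Finset.insert_inter_of_mem haT
      have e2 : insert a S ∪ T = S ∪ T := by
        rw [Finset.insert_union, Finset.insert_eq_of_mem (Finset.mem_union_right _ haT)]
      rw [e1, e2, Finset.card_insert_of_notMem (fun h => ha (Finset.mem_inter.1 h).1), pow_succ, mul_assoc]
    · rw [X_XS_insert g a (S ∪ T) (by
        rw [Finset.mem_union, not_or]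
        exact ⟨ha, haT⟩)]
      have e1 : insert a S ∩ T = S ∩ T := Finset.insert_inter_of_notMem haT
      rw [e1, Finset.insert_union]

/-- Products of functions act as compositions. -/
theorem hact_mul (g : Gm K E n) {a b : ℕ} {f h : Pt n → K} (hf : f ∈ Dg K n a) (hh : h ∈ Dg K n b) :
    g.hact a f * g.hact b h = g.hact (a + b) (f * h) := by
  have hfg : f * h = ∑ S : Finset (Fin n), ∑ T : Finset (Fin n), (cf f S * cf h T) • mono K (S ∪ T) := by
    conv_lhs => rw [cf_exp f, cf_exp h]
    rw [Finset.sum_mul]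
    refine Finset.sum_congr rfl fun S _ => ?_
    rw [Finset.mul_sum]
    refine Finset.sum_congr rfl fun T _ => ?_
    rw [smul_mul_smul_comm, mono_mul]
  rw [hfg, hact_sum]
  conv_lhs => rw [Gm.hact, Finset.sum_mul]
  refine Finset.sum_congr rfl fun S _ => ?_
  rw [hact_sum]
  conv_lhs => rw [Gm.hact, Finset.mul_sum]
  refine Finset.sum_congr rfl fun T _ => ?_
  rw [hact_smul]
  by_cases hS : S.card ≤ a
  swap
  · rw [if_neg hS, cf_dg hf S (by omega), zero_mul, zero_mul, zero_smul]
  by_cases hT : T.card ≤ b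
  swap
  · rw [if_neg hT, cf_dg hh T (by omega), mul_zero, mul_zero, zero_smul]
  rw [if_pos hS, if_pos hT, smul_mul_smul_comm]
  congr 1
  have hc := Finset.card_union_add_card_inter S T
  rw [hact_mono g (S ∪ T) (by omega), mul_assoc, ← mul_assoc (g.XS S), ← Jk_XS, mul_assoc, XS_XS, ← mul_assoc,
    ← mul_assoc, ← pow_add, ← pow_add]
  congr 2
  omega

theorem hact_mul' (g : Gm K E n) {a b : ℕ} {f h : Pt n → K} (hf : f ∈ Dg K n a) (hh : h ∈ Dg K n b) (m : E) :
    g.hact a f (g.hact b h m) = g.hact (a + b) (f * h) m := by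
  rw [← hact_mul g hf hh]
  rfl

theorem hact_up (g : Gm K E n) {a : ℕ} (b : ℕ) {f : Pt n → K} (hf : f ∈ Dg K n a) (m : E) :
    g.hact (a + b) f m = (g.J ^ b) (g.hact a f m) := by
  have h := hact_mul' g (Dg_one (K := K) (n := n) b) hf m
  rw [hact_one, one_mul, add_comm b a] at h
  exact h.symm

theorem hact_upJ (g : Gm K E n) {a : ℕ} (b : ℕ) {f : Pt n → K} (hf : f ∈ Dg K n a) (m : E) :
    g.hact (a + b) f m = g.hact a f ((g.J ^ b) m) := by
  have h := hact_mul' g hf (Dg_one (K := K) (n := n) b) m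
  rw [hact_one, mul_one] at h
  exact h.symm

theorem hact_J (g : Gm K E n) {a : ℕ} (b : ℕ) {f : Pt n → K} (hf : f ∈ Dg K n a) (m : E) :
    (g.J ^ b) (g.hact a f m) = g.hact a f ((g.J ^ b) m) := by
  rw [← hact_up g b hf m, hact_upJ g b hf m]

theorem Jk_mem (g : Gm K E n) {j : ℕ} {m : E} (hm : m ∈ g.M j) (k : ℕ) : (g.J ^ k) m ∈ g.M (j + k) := by
  induction k with
  | zero => simpa using hm
  | succ k ih =>
    rw [pow_succ', Module.End.mul_apply]
    exact g.mapJ _ _ ih

theorem XS_mem (g : Gm K E n) {j : ℕ} {m : E} (hm : m ∈ g.M j) (S : Finset (Fin n)) : g.XS S m ∈ g.M (j + S.card) := by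
  classical
  revert S
  intro S
  refine Finset.induction_on S ?_ ?_
  · rw [XS_empty]
    simpa using hm
  · intro a S ha ih
    rw [← X_XS_insert g a S ha, Finset.card_insert_of_notMem ha, Module.End.mul_apply]
    exact g.mapX a _ _ ih

theorem hact_mem (g : Gm K E n) {j : ℕ} {m : E} (hm : m ∈ g.M j) (a : ℕ) (f : Pt n → K) : g.hact a f m ∈ g.M (j + a) := by
  unfold Gm.hact
  rw [LinearMap.sum_apply]
  refine Submodule.sum_mem _ fun S _ => ?_
  by_cases hS : S.card ≤ a
  · rw [if_pos hS, LinearMap.smul_apply, Module.End.mul_apply]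
    refine Submodule.smul_mem _ _ ?_
    have h := Jk_mem g (XS_mem g hm S) (a - S.card)
    have e : j + S.card + (a - S.card) = j + a := by omega
    rwa [e] at h
  · rw [if_neg hS, LinearMap.zero_apply]
    exact Submodule.zero_mem _

/-- The action lies in the space of operators. -/
theorem hact_Op (g : Gm K E n) (a : ℕ) (f : Pt n → K) : g.hact a f ∈ g.Op a := by
  unfold Gm.hact Gm.Op
  refine Submodule.sum_mem _ fun S _ => ?_
  by_cases hS : S.card ≤ a
  · rw [if_pos hS]
    exact Submodule.smul_mem _ _ (Submodule.subset_span ⟨S, hS, rfl⟩)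
  · rw [if_neg hS]
    exact Submodule.zero_mem _

/-- Every operator of degree `a` is the action of a function of degree `a`. -/
theorem Op_hact (g : Gm K E n) (a : ℕ) {P : E →ₗ[K] E} (hP : P ∈ g.Op a) : ∃ f ∈ Dg K n a, P = g.hact a f := by
  unfold Gm.Op at hP
  refine Submodule.span_induction ?_ ?_ ?_ ?_ hP
  · rintro _ ⟨S, hS, rfl⟩
    exact ⟨mono K S, mono_mem S hS, (hact_mono g S hS).symm⟩
  · exact ⟨0, Submodule.zero_mem _, (hact_zero g a).symm⟩
  · rintro _ _ _ _ ⟨f, hf, rfl⟩ ⟨h, hh, rfl⟩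
    exact ⟨f + h, Submodule.add_mem _ hf hh, (hact_add g a f h).symm⟩
  · rintro c _ _ ⟨f, hf, rfl⟩
    exact ⟨c • f, Submodule.smul_mem _ c hf, (hact_smul g a c f).symm⟩

end PPh.GA
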