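import Pool.Agent.H4.PP.GAct

/-!
helper4 (project MP_28250c_PP, block G): the averaging lemma (G1) and the gate lemma (G2) for graded modules.
-/

set_option autoImplicit false
open Finset

namespace PPh.GA

open ACpFrege PPh

variable {K : Type} [Field K] {E : Type} [AddCommGroup E] [Module K E] {n : ℕ}

/-- The kernel of the action of `f` (as an operator of degree `a`) in `W`. -/
noncomputable def _root_.PPh.Gm.gk (g : Gm K E n) (a : ℕ) (W : Submodule K E) (f : Pt n → K) : Submodule K E :=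
  W ⊓ LinearMap.ker (g.hact a f)

/-- The common kernel in `W` of the functions `H * b c`, `c ∈ J` (operators of degree `a`). -/
noncomputable def _root_.PPh.Gm.gks (g : Gm K E n) (a : ℕ) (W : Submodule K E) (H : Pt n → K) (J : Finset ℕ) (b : ℕ → Pt n → K) :
    Submodule K E := W ⊓ ⨅ i ∈ J, LinearMap.ker (g.hact a (H * b i))

theorem _root_.PPh.mem_gk (g : Gm K E n) (a : ℕ) (W : Submodule K E) (f : Pt n → K) (m : E) :
    m ∈ g.gk a W f ↔ m ∈ W ∧ g.hact a f m = 0 := by
  unfold Gm.gk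
  rw [Submodule.mem_inf, LinearMap.mem_ker]

theorem _root_.PPh.mem_gks (g : Gm K E n) (a : ℕ) (W : Submodule K E) (H : Pt n → K) (J : Finset ℕ) (b : ℕ → Pt n → K) (m : E) :
    m ∈ g.gks a W H J b ↔ m ∈ W ∧ ∀ c ∈ J, g.hact a (H * b c) m = 0 := by
  unfold Gm.gks
  simp [Submodule.mem_inf, Submodule.mem_iInf]

theorem rank_map [FiniteDimensional K E] (f : E →ₗ[K] E) (S : Submodule K E) :
    Module.finrank K ↥(S.map f) + Module.finrank K ↥(S ⊓ LinearMap.ker f) = Module.finrank K S := by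
  have h1 := LinearMap.finrank_range_add_finrank_ker (f.domRestrict S)
  rw [LinearMap.range_domRestrict, LinearMap.ker_domRestrict] at h1
  rw [← h1]
  congr 1
  rw [← Submodule.map_comap_subtype, Submodule.finrank_map_subtype_eq]

/-- The kernel of `J ^ w` on a level is small. -/
theorem ker_Jpow [FiniteDimensional K E] (g : Gm K E n) {kap L : ℕ}
    (hkap : ∀ j < L, Module.finrank K ↥(g.M j ⊓ LinearMap.ker g.J) ≤ kap) (w : ℕ) :
    ∀ j, j + w ≤ L → Module.finrank K ↥(g.M j ⊓ LinearMap.ker (g.J ^ w)) ≤ w * kap := by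
  induction w with
  | zero =>
    intro j _
    have h : g.M j ⊓ LinearMap.ker (g.J ^ 0) = ⊥ := by
      rw [eq_bot_iff]
      intro m hm
      rw [Submodule.mem_inf, LinearMap.mem_ker, pow_zero, Module.End.one_apply] at hm
      rw [hm.2]
      exact Submodule.zero_mem _
    rw [h, finrank_bot]
    omega
  | succ w ih =>
    intro j hj
    set S := g.M j ⊓ LinearMap.ker (g.J ^ (w + 1)) with hS
    have h1 := rank_map g.J S
    have h2 : S.map g.J ≤ g.M (j + 1) ⊓ LinearMap.ker (g.J ^ w) := by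
      rintro _ ⟨m, hm, rfl⟩
      have hm' : m ∈ S := hm
      rw [hS, Submodule.mem_inf, LinearMap.mem_ker, pow_succ, Module.End.mul_apply] at hm'
      rw [Submodule.mem_inf, LinearMap.mem_ker]
      exact ⟨g.mapJ j m hm'.1, hm'.2⟩
    have h3 : S ⊓ LinearMap.ker g.J ≤ g.M j ⊓ LinearMap.ker g.J := inf_le_inf_right _ inf_le_left
    have h4 := Submodule.finrank_mono h2
    have h5 := Submodule.finrank_mono h3
    have h6 := ih (j + 1) (by omega)
    have h7 := hkap j (by omega)
    have e : (w + 1) * kap = w * kap + kap := by ring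
    omega

theorem ker_step [FiniteDimensional K E] (g : Gm K E n) {kap L : ℕ}
    (hkap : ∀ j < L, Module.finrank K ↥(g.M j ⊓ LinearMap.ker g.J) ≤ kap) (w j : ℕ) (hj : j + w ≤ L)
    (f : E →ₗ[K] E) (S : Submodule K E) (hS : ∀ m ∈ S, f m ∈ g.M j) :
    Module.finrank K ↥(S ⊓ (LinearMap.ker (g.J ^ w)).comap f) ≤ Module.finrank K ↥(S ⊓ LinearMap.ker f) + w * kap := by
  set T := S ⊓ (LinearMap.ker (g.J ^ w)).comap f with hT
  have h1 := rank_map f T
  have h2 : T.map f ≤ g.M j ⊓ LinearMap.ker (g.J ^ w) := by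
    rintro _ ⟨m, hm, rfl⟩
    have hm' : m ∈ T := hm
    rw [hT, Submodule.mem_inf, Submodule.mem_comap] at hm'
    exact ⟨hS m hm'.1, hm'.2⟩
  have h3 : T ⊓ LinearMap.ker f ≤ S ⊓ LinearMap.ker f := inf_le_inf_right _ inf_le_left
  have h4 := Submodule.finrank_mono h2
  have h5 := Submodule.finrank_mono h3
  have h6 := ker_Jpow g hkap w j hj
  omega

theorem ker_steps [FiniteDimensional K E] (g : Gm K E n) {kap L : ℕ}
    (hkap : ∀ j < L, Module.finrank K ↥(g.M j ⊓ LinearMap.ker g.J) ≤ kap) (w j : ℕ) (hj : j + w ≤ L)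
    (f : ℕ → E →ₗ[K] E) (J : Finset ℕ) (W : Submodule K E) (hW : ∀ c ∈ J, ∀ m ∈ W, f c m ∈ g.M j) :
    Module.finrank K ↥(W ⊓ ⨅ c ∈ J, (LinearMap.ker (g.J ^ w)).comap (f c)) ≤
      Module.finrank K ↥(W ⊓ ⨅ c ∈ J, LinearMap.ker (f c)) + J.card * (w * kap) := by
  classical
  induction J using Finset.induction_on generalizing W with
  | empty =>
    have e1 : (⨅ c ∈ (∅ : Finset ℕ), (LinearMap.ker (g.J ^ w)).comap (f c)) = (⊤ : Submodule K E) := by simp
    have e2 : (⨅ c ∈ (∅ : Finset ℕ), LinearMap.ker (f c)) = (⊤ : Submodule K E) := by simp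
    rw [e1, e2]
    omega
  | insert c J hc ih =>
    rw [Finset.iInf_insert, Finset.iInf_insert, ← inf_assoc, Finset.card_insert_of_notMem hc]
    have h1 := ih (W ⊓ (LinearMap.ker (g.J ^ w)).comap (f c))
      (fun d hd m hm => hW d (Finset.mem_insert_of_mem hd) m (Submodule.mem_inf.1 hm).1)
    have h2 := ker_step g hkap w j hj (f c) (W ⊓ ⨅ c ∈ J, LinearMap.ker (f c))
      (fun m hm => hW c (Finset.mem_insert_self _ _) m (Submodule.mem_inf.1 hm).1)
    have e1 : W ⊓ (LinearMap.ker (g.J ^ w)).comap (f c) ⊓ ⨅ c ∈ J, LinearMap.ker (f c) =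
        (W ⊓ ⨅ c ∈ J, LinearMap.ker (f c)) ⊓ (LinearMap.ker (g.J ^ w)).comap (f c) := inf_right_comm _ _ _
    have e2 : (W ⊓ ⨅ c ∈ J, LinearMap.ker (f c)) ⊓ LinearMap.ker (f c) =
        W ⊓ (LinearMap.ker (f c) ⊓ ⨅ c ∈ J, LinearMap.ker (f c)) := by
      rw [inf_assoc, inf_comm (⨅ c ∈ J, LinearMap.ker (f c))]
    rw [e1] at h1
    rw [e2] at h2
    have e3 : (J.card + 1) * (w * kap) = J.card * (w * kap) + w * kap := by ring
    omega

private theorem avg_step [FiniteDimensional K E] (g : Gm K E n) {kap L : ℕ}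
    (hkap : ∀ j < L, Module.finrank K ↥(g.M j ⊓ LinearMap.ker g.J) ≤ kap) {j h e : ℕ} (W : Submodule K E) (hW : W ≤ g.M j)
    {H q c : Pt n → K} (hc : c ∈ Dg K n e) (hcc : c * c = c) (hq : q ∈ Dg K n e) (hH : H ∈ Dg K n h)
    (hL : j + h + 2 * e ≤ L) :
    Module.finrank K (g.gk (h + e) W (H * q)) + Module.finrank K (g.gk (h + e) W (H * (c + q))) +
        Module.finrank K (g.gk (h + e) W (H * c)) ≤
      Module.finrank K W + 2 * Module.finrank K (g.gk (h + e) (g.gk (h + e) W (H * c)) (H * q)) + e * kap := by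
  have hHc := Dg_mul hH hc
  have hHq := Dg_mul hH hq
  set T := g.hact (h + e) (H * c) with hT
  set A := g.gk (h + e) W (H * c) with hA
  set K2 := g.gk (h + e) W (H * q) with hK2
  set K3 := g.gk (h + e) W (H * (c + q)) with hK3
  have r1 := rank_map T W
  have r2 := rank_map T K2
  have r3 := rank_map T K3
  have a1 : W ⊓ LinearMap.ker T = A := rfl
  have hsum : ∀ m, g.hact (h + e) (H * (c + q)) m = T m + g.hact (h + e) (H * q) m := by
    intro m
    rw [mul_add, hact_add, LinearMap.add_apply]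
  have a2 : K2 ⊓ LinearMap.ker T = g.gk (h + e) A (H * q) := by
    ext m
    rw [Submodule.mem_inf, LinearMap.mem_ker, hK2, mem_gk, mem_gk, hA, mem_gk]
    tauto
  have a3 : K3 ⊓ LinearMap.ker T = g.gk (h + e) A (H * q) := by
    ext m
    rw [Submodule.mem_inf, LinearMap.mem_ker, hK3, mem_gk, mem_gk, hA, mem_gk, hsum]
    constructor
    · rintro ⟨⟨hm, h0⟩, h1⟩
      rw [h1, zero_add] at h0
      exact ⟨⟨hm, h1⟩, h0⟩
    · rintro ⟨⟨hm, h1⟩, h0⟩
      refine ⟨⟨hm, ?_⟩, h1⟩
      rw [h0, add_zero]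
      exact h1
  rw [a1] at r1
  rw [a2] at r2
  rw [a3] at r3
  have s1 := Submodule.finrank_sup_add_finrank_inf_eq (K2.map T) (K3.map T)
  have s2 : Module.finrank K ↥(K2.map T ⊔ K3.map T) ≤ Module.finrank K ↥(W.map T) :=
    Submodule.finrank_mono (sup_le (Submodule.map_mono inf_le_left) (Submodule.map_mono inf_le_left))
  have s3 : K2.map T ⊓ K3.map T ≤ g.M (j + (h + e)) ⊓ LinearMap.ker (g.J ^ e) := by
    rintro y ⟨⟨m, hm, rfl⟩, ⟨m', hm', hy⟩⟩
    have hm1 : m ∈ K2 := hm
    have hm2 : m' ∈ K3 := hm'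
    rw [hK2, mem_gk] at hm1
    rw [hK3, mem_gk] at hm2
    rw [Submodule.mem_inf, LinearMap.mem_ker]
    refine ⟨hact_mem g (hW hm1.1) _ _, ?_⟩
    -- the action of q kills y
    have p1 : g.hact e q (T m) = 0 := by
      rw [hT, hact_mul' g hq hHc]
      have e1 : q * (H * c) = c * (H * q) := by ring
      rw [e1, ← hact_mul' g hc hHq, hm1.2, map_zero]
    have hHcq := Dg_mul hH (Submodule.add_mem _ hc hq)
    have p2 : (g.J ^ e) (T m') + g.hact e q (T m') = 0 := by
      rw [hT, hact_mul' g hq hHc, ← hact_up g e hHc, add_comm (h + e) e, ← LinearMap.add_apply, ← hact_add]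
      have e1 : H * c + q * (H * c) = c * (H * (c + q)) := by
        calc H * c + q * (H * c) = H * (c * c) + q * (H * c) := by rw [hcc]
          _ = c * (H * (c + q)) := by ring
      rw [e1, ← hact_mul' g hc hHcq, hm2.2, map_zero]
    rw [hy, p1, add_zero] at p2
    exact p2
  have s4 := Submodule.finrank_mono s3
  have s5 := ker_Jpow g hkap e (j + (h + e)) (by omega)
  omega

/-- The averaging lemma. -/
theorem gavg_sum [FiniteDimensional K E] (g : Gm K E n) {kap L : ℕ}
    (hkap : ∀ j < L, Module.finrank K ↥(g.M j ⊓ LinearMap.ker g.J) ≤ kap) {j h e : ℕ} (W : Submodule K E) (hW : W ≤ g.M j)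
    (J : Finset ℕ) (b : ℕ → Pt n → K) (hb : ∀ i ∈ J, b i ∈ Dg K n e) (h01 : ∀ i ∈ J, Bv (b i)) {H : Pt n → K}
    (hH : H ∈ Dg K n h) (hL : j + h + 2 * e ≤ L) :
    2 * ∑ I ∈ J.powerset, Module.finrank K (g.gk (h + e) W (H * ∑ i ∈ I, b i)) ≤
      2 ^ J.card * (Module.finrank K W + Module.finrank K (g.gks (h + e) W H J b) + J.card * (e * kap)) := by
  classical
  induction J using Finset.induction_on generalizing W with
  | empty =>
      have h0 : g.gk (h + e) W (H * ∑ i ∈ (∅ : Finset ℕ), b i) = W := by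
        ext m
        rw [mem_gk, Finset.sum_empty, mul_zero, hact_zero]
        simp
      have h1 : g.gks (h + e) W H ∅ b = W := by
        unfold Gm.gks
        simp
      rw [Finset.powerset_empty, Finset.sum_singleton, h0, h1, Finset.card_empty, pow_zero]
      omega
  | insert c J hc ih =>
      have hbJ : ∀ i ∈ J, b i ∈ Dg K n e := fun i hi => hb i (Finset.mem_insert_of_mem hi)
      have h01J : ∀ i ∈ J, Bv (b i) := fun i hi => h01 i (Finset.mem_insert_of_mem hi)
      have hcc : b c * b c = b c := by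
        funext x
        rw [Pi.mul_apply]
        rcases h01 c (Finset.mem_insert_self _ _) x with h | h <;> rw [h] <;> ring
      have hbc := hb c (Finset.mem_insert_self _ _)
      have ih0 := ih (g.gk (h + e) W (H * b c)) (inf_le_left.trans hW) hbJ h01J
      have hkrs : g.gks (h + e) (g.gk (h + e) W (H * b c)) H J b = g.gks (h + e) W H (insert c J) b := by
        unfold Gm.gks Gm.gk
        rw [Finset.iInf_insert, inf_assoc]
      rw [hkrs] at ih0
      rw [Finset.sum_powerset_insert hc, ← Finset.sum_add_distrib, Finset.card_insert_of_notMem hc]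
      have hstep : ∀ I ∈ J.powerset, Module.finrank K (g.gk (h + e) W (H * ∑ i ∈ I, b i)) +
          Module.finrank K (g.gk (h + e) W (H * ∑ i ∈ insert c I, b i)) + Module.finrank K (g.gk (h + e) W (H * b c)) ≤
          Module.finrank K W + 2 * Module.finrank K (g.gk (h + e) (g.gk (h + e) W (H * b c)) (H * ∑ i ∈ I, b i)) +
            e * kap := by
        intro I hI
        rw [Finset.mem_powerset] at hI
        rw [Finset.sum_insert fun h => hc (hI h)]
        exact avg_step g hkap W hW hbc hcc (Submodule.sum_mem _ fun i hi => hbJ i (hI hi)) hH hL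
      have hsum : ∑ I ∈ J.powerset, (Module.finrank K (g.gk (h + e) W (H * ∑ i ∈ I, b i)) +
          Module.finrank K (g.gk (h + e) W (H * ∑ i ∈ insert c I, b i))) +
            2 ^ J.card * Module.finrank K (g.gk (h + e) W (H * b c)) ≤
          2 ^ J.card * Module.finrank K W +
            2 * ∑ I ∈ J.powerset, Module.finrank K (g.gk (h + e) (g.gk (h + e) W (H * b c)) (H * ∑ i ∈ I, b i)) +
              2 ^ J.card * (e * kap) := by
        have h := Finset.sum_le_sum hstep
        simpa only [Finset.sum_add_distrib, Finset.sum_const, Finset.card_powerset, Finset.mul_sum, smul_eq_mul] using h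
      have e3 : 2 ^ J.card * (Module.finrank K (g.gk (h + e) W (H * b c)) +
          Module.finrank K (g.gks (h + e) W H (insert c J) b) + J.card * (e * kap)) =
          2 ^ J.card * Module.finrank K (g.gk (h + e) W (H * b c)) +
            2 ^ J.card * Module.finrank K (g.gks (h + e) W H (insert c J) b) + 2 ^ J.card * (J.card * (e * kap)) := by ring
      rw [e3] at ih0
      have e4 : 2 ^ (J.card + 1) * (Module.finrank K W + Module.finrank K (g.gks (h + e) W H (insert c J) b) +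
          (J.card + 1) * (e * kap)) = 2 * (2 ^ J.card * Module.finrank K W) +
            2 * (2 ^ J.card * Module.finrank K (g.gks (h + e) W H (insert c J) b)) +
              2 * (2 ^ J.card * (J.card * (e * kap))) + 2 * (2 ^ J.card * (e * kap)) := by ring
      rw [e4]
      omega

theorem gavg_ex [FiniteDimensional K E] (g : Gm K E n) {kap L : ℕ}
    (hkap : ∀ j < L, Module.finrank K ↥(g.M j ⊓ LinearMap.ker g.J) ≤ kap) {j h e : ℕ} (W : Submodule K E) (hW : W ≤ g.M j)
    (J : Finset ℕ) (b : ℕ → Pt n → K) (hb : ∀ i ∈ J, b i ∈ Dg K n e) (h01 : ∀ i ∈ J, Bv (b i)) {H : Pt n → K}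
    (hH : H ∈ Dg K n h) (hL : j + h + 2 * e ≤ L) :
    ∃ I ⊆ J, 2 * Module.finrank K (g.gk (h + e) W (H * ∑ i ∈ I, b i)) ≤
      Module.finrank K W + Module.finrank K (g.gks (h + e) W H J b) + J.card * (e * kap) := by
  by_contra hcon
  push Not at hcon
  have h1 := gavg_sum g hkap W hW J b hb h01 hH hL
  have h2 : ∑ I ∈ J.powerset, (Module.finrank K W + Module.finrank K (g.gks (h + e) W H J b) + J.card * (e * kap)) <
      ∑ I ∈ J.powerset, 2 * Module.finrank K (g.gk (h + e) W (H * ∑ i ∈ I, b i)) :=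
    Finset.sum_lt_sum_of_nonempty ⟨∅, Finset.empty_mem_powerset J⟩
      fun I hI => hcon I (Finset.mem_powerset.1 hI)
  rw [Finset.sum_const, Finset.card_powerset, smul_eq_mul, ← Finset.mul_sum] at h2
  omega

theorem grk_mono [FiniteDimensional K E] (g : Gm K E n) {kap L : ℕ}
    (hkap : ∀ j < L, Module.finrank K ↥(g.M j ⊓ LinearMap.ker g.J) ≤ kap) {i e a : ℕ} (hei : e ≤ i) (H : Pt n → K)
    (J : Finset ℕ) (b : ℕ → Pt n → K) (hd : ∀ c ∈ J, H * b c ∈ Dg K n a) (hL : i + a ≤ L) :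
    Module.finrank K (g.M (i - e)) + Module.finrank K (g.gks a (g.M i) H J b) ≤
      Module.finrank K (g.M i) + Module.finrank K (g.gks a (g.M (i - e)) H J b) + J.card * (e * kap) := by
  set V := g.gks a (g.M i) H J b with hV
  set W := g.M (i - e) with hW
  set U := W ⊓ V.comap (g.J ^ e) with hU
  -- the dimension of U
  have u1 : U ≤ W ⊓ ⨅ c ∈ J, (LinearMap.ker (g.J ^ e)).comap (g.hact a (H * b c)) := by
    intro m hm
    rw [hU, Submodule.mem_inf, Submodule.mem_comap, hV, mem_gks] at hm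
    rw [Submodule.mem_inf]
    refine ⟨hm.1, ?_⟩
    simp only [Submodule.mem_iInf, Submodule.mem_comap, LinearMap.mem_ker]
    intro c hc
    rw [hact_J g e (hd c hc)]
    exact hm.2.2 c hc
  have u2 := Submodule.finrank_mono u1
  have u3 := ker_steps g hkap e (i - e + a) (by omega) (fun c => g.hact a (H * b c)) J W
    (fun c _ m hm => hact_mem g hm _ _)
  -- the image
  have r1 := rank_map (g.J ^ e) W
  have r2 := rank_map (g.J ^ e) U
  have hUW : U ⊓ LinearMap.ker (g.J ^ e) = W ⊓ LinearMap.ker (g.J ^ e) := by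
    apply le_antisymm (inf_le_inf_right _ inf_le_left)
    intro m hm
    rw [Submodule.mem_inf, LinearMap.mem_ker] at hm
    rw [Submodule.mem_inf, LinearMap.mem_ker]
    refine ⟨?_, hm.2⟩
    rw [Submodule.mem_inf, Submodule.mem_comap, hm.2]
    exact ⟨hm.1, Submodule.zero_mem _⟩
  have hmap : U.map (g.J ^ e) = V ⊓ W.map (g.J ^ e) := by
    apply le_antisymm
    · rintro _ ⟨m, hm, rfl⟩
      have hm' : m ∈ U := hm
      rw [hU, Submodule.mem_inf, Submodule.mem_comap] at hm'
      exact ⟨hm'.2, ⟨m, hm'.1, rfl⟩⟩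
    · rintro y ⟨hy, ⟨m, hm, rfl⟩⟩
      exact ⟨m, Submodule.mem_inf.2 ⟨hm, Submodule.mem_comap.2 hy⟩, rfl⟩
  rw [hUW, hmap] at r2
  have r3 := Submodule.finrank_sup_add_finrank_inf_eq V (W.map (g.J ^ e))
  have hWM : W.map (g.J ^ e) ≤ g.M i := by
    rintro _ ⟨m, hm, rfl⟩
    have h := Jk_mem g (show m ∈ g.M (i - e) from hm) e
    rwa [Nat.sub_add_cancel hei] at h
  have r4 : Module.finrank K ↥(V ⊔ W.map (g.J ^ e)) ≤ Module.finrank K (g.M i) :=
    Submodule.finrank_mono (sup_le inf_le_left hWM)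
  have e1 : g.gks a W H J b = W ⊓ ⨅ c ∈ J, LinearMap.ker (g.hact a (H * b c)) := rfl
  rw [e1]
  omega

theorem gks_step (g : Gm K E n) {h e k : ℕ} (W : Submodule K E) (H G : Pt n → K) (J : Finset ℕ) (b : ℕ → Pt n → K)
    (hb : ∀ c ∈ J, b c ∈ Dg K n e) (hH : H ∈ Dg K n h) (hG : G ∈ Dg K n k) :
    g.gks (h + e) W H J b ≤ g.gks (h + k + e) W (H * G) J b := by
  intro m hm
  rw [mem_gks] at hm ⊢
  refine ⟨hm.1, fun c hc => ?_⟩
  have h1 := hact_mul' g hG (Dg_mul hH (hb c hc)) m
  rw [hm.2 c hc, map_zero] at h1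
  have h2 : H * G * b c = G * (H * b c) := by ring
  have h3 : h + k + e = k + (h + e) := by ring
  rw [h2, h3, ← h1]

private theorem frob {p : ℕ} [Fact p.Prime] [CharP K p] (I : Finset ℕ) (b : ℕ → Pt n → K) (h01 : ∀ c ∈ I, Bv (b c))
    (x : Pt n) : ((∑ c ∈ I, b c) x) ^ p = (∑ c ∈ I, b c) x := by
  have h1 : ∃ k : ℕ, (∑ c ∈ I, b c) x = (k : K) := by
    rw [Finset.sum_apply]
    refine Finset.sum_induction (fun c => b c x) (fun y => ∃ k : ℕ, y = (k : K)) ?_ ⟨0, by simp⟩ ?_
    · rintro a a' ⟨k, rfl⟩ ⟨k', rfl⟩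
      exact ⟨k + k', by push_cast; ring⟩
    · intro c hc
      rcases h01 c hc x with h | h
      · exact ⟨0, by simp [h]⟩
      · exact ⟨1, by simp [h]⟩
  obtain ⟨k, hk⟩ := h1
  rw [hk]
  have := map_natCast (frobenius K p) k
  rwa [frobenius_def] at this

theorem ggate_step [FiniteDimensional K E] {p : ℕ} [Fact p.Prime] [CharP K p] (g : Gm K E n) {kap L : ℕ}
    (hkap : ∀ j < L, Module.finrank K ↥(g.M j ⊓ LinearMap.ker g.J) ≤ kap) {i h e : ℕ} (he : e ≤ i)
    (J I : Finset ℕ) (hI : I ⊆ J) (b : ℕ → Pt n → K) (hb : ∀ c ∈ J, b c ∈ Dg K n e) (h01 : ∀ c ∈ J, Bv (b c))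
    {H : Pt n → K} (hH : H ∈ Dg K n h) (hL : i + h + (p - 1) * e ≤ L) :
    Module.finrank K (g.gks (h + e) (g.M i) H J b) + Module.finrank K (g.M (i - e)) ≤
      Module.finrank K (g.gks (h + (p - 1) * e + e) (g.M i) (H * (1 - (∑ c ∈ I, b c) ^ (p - 1))) J b) +
        Module.finrank K (g.gk (h + e) (g.M (i - e)) (H * ∑ c ∈ I, b c)) + (p - 1) * e * kap := by
  have hp : 2 ≤ p := (Fact.out : p.Prime).two_le
  obtain ⟨p', rfl⟩ : ∃ p', p = p' + 2 := ⟨p - 2, by omega⟩
  have hpp : p' + 2 - 1 = p' + 1 := by omega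
  rw [hpp] at hL ⊢
  have hfr := frob (p := p' + 2) I b (fun c hc => h01 c (hI hc))
  set q : Pt n → K := ∑ c ∈ I, b c with hq
  have hqd : q ∈ Dg K n e := Submodule.sum_mem _ fun c hc => hb c (hI hc)
  have hG : (1 - q ^ (p' + 1)) ∈ Dg K n ((p' + 1) * e) := Submodule.sub_mem _ (Dg_one _) (Dg_pow hqd _)
  have hGq : (1 - q ^ (p' + 1)) * q = 0 := by
    funext x
    have := hfr x
    simp only [Pi.mul_apply, Pi.sub_apply, Pi.one_apply, Pi.pow_apply, Pi.zero_apply]
    calc (1 - q x ^ (p' + 1)) * q x = q x - q x ^ (p' + 2) := by ring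
      _ = 0 := by rw [this]; ring
  have hHp : q ^ p' * (H * q * q) = H * q := by
    funext x
    have := hfr x
    simp only [Pi.mul_apply, Pi.pow_apply]
    calc q x ^ p' * (H x * q x * q x) = H x * q x ^ (p' + 2) := by ring
      _ = H x * q x := by rw [this]
  have hHqd := Dg_mul hH hqd
  -- names
  set A := g.gks (h + e) (g.M i) H J b with hA
  set B := g.gks (h + (p' + 1) * e + e) (g.M i) (H * (1 - q ^ (p' + 1))) J b with hB
  set W := g.M (i - e) with hW
  have hAB : A ≤ B := gks_step g (g.M i) H _ J b hb hH hG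
  have hqW : W.map (g.hact e q) ≤ B := by
    rintro _ ⟨m, hm, rfl⟩
    rw [hB, mem_gks]
    constructor
    · have := hact_mem g (show m ∈ g.M (i - e) from hm) e q
      rwa [Nat.sub_add_cancel he] at this
    · intro c hc
      rw [hact_mul' g (Dg_mul (Dg_mul hH hG) (hb c hc)) hqd]
      have : H * (1 - q ^ (p' + 1)) * b c * q = 0 := by
        have : H * (1 - q ^ (p' + 1)) * b c * q = H * b c * ((1 - q ^ (p' + 1)) * q) := by ring
        rw [this, hGq, mul_zero]
      rw [this, hact_zero]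
      rfl
  -- N
  set N := W ⊓ A.comap (g.hact e q) with hN
  have hNk : N ≤ W ⊓ (LinearMap.ker (g.J ^ ((p' + 1) * e))).comap (g.hact (h + e) (H * q)) := by
    intro m hm
    rw [hN, Submodule.mem_inf, Submodule.mem_comap, hA, mem_gks] at hm
    rw [Submodule.mem_inf, Submodule.mem_comap, LinearMap.mem_ker]
    refine ⟨hm.1, ?_⟩
    have h1 : g.hact (h + e + e) (H * q * q) m = 0 := by
      have h2 : H * q * q = ∑ c ∈ I, H * b c * q := by
        rw [← Finset.sum_mul, ← Finset.mul_sum]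
      rw [h2, hact_sum, LinearMap.sum_apply]
      refine Finset.sum_eq_zero fun c hc => ?_
      rw [← hact_mul' g (Dg_mul hH (hb c (hI hc))) hqd]
      exact hm.2.2 c (hI hc)
    have h3 := hact_mul' g (Dg_pow hqd p') (Dg_mul hHqd hqd) m
    rw [h1, map_zero, hHp] at h3
    rw [← hact_up g _ hHqd]
    have e1 : h + e + (p' + 1) * e = p' * e + (h + e + e) := by ring
    rw [e1]
    exact h3.symm
  have r1 := rank_map (g.hact e q) W
  have r2 := rank_map (g.hact e q) N
  have hNW : N ⊓ LinearMap.ker (g.hact e q) = W ⊓ LinearMap.ker (g.hact e q) := by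
    apply le_antisymm (inf_le_inf_right _ inf_le_left)
    intro m hm
    rw [Submodule.mem_inf, LinearMap.mem_ker] at hm
    rw [Submodule.mem_inf, LinearMap.mem_ker]
    refine ⟨?_, hm.2⟩
    rw [Submodule.mem_inf, Submodule.mem_comap, hm.2]
    exact ⟨hm.1, Submodule.zero_mem _⟩
  have hmap : N.map (g.hact e q) = A ⊓ W.map (g.hact e q) := by
    apply le_antisymm
    · rintro _ ⟨m, hm, rfl⟩
      have hm' : m ∈ N := hm
      rw [hN, Submodule.mem_inf, Submodule.mem_comap] at hm'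
      exact ⟨hm'.2, ⟨m, hm'.1, rfl⟩⟩
    · rintro y ⟨hy, ⟨m, hm, rfl⟩⟩
      exact ⟨m, Submodule.mem_inf.2 ⟨hm, Submodule.mem_comap.2 hy⟩, rfl⟩
  rw [hNW, hmap] at r2
  have r3 := Submodule.finrank_sup_add_finrank_inf_eq A (W.map (g.hact e q))
  have r4 : Module.finrank K ↥(A ⊔ W.map (g.hact e q)) ≤ Module.finrank K B := Submodule.finrank_mono (sup_le hAB hqW)
  have r5 := Submodule.finrank_mono hNk
  have r6 := ker_step g hkap ((p' + 1) * e) (i - e + (h + e)) (by omega) (g.hact (h + e) (H * q)) W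
    (fun m hm => hact_mem g hm _ _)
  have e2 : W ⊓ LinearMap.ker (g.hact (h + e) (H * q)) = g.gk (h + e) W (H * q) := rfl
  rw [e2] at r6
  omega

theorem ghprod_dg {p t e : ℕ} (J : Finset ℕ) (I : ℕ → Finset ℕ) (hI : ∀ j, I j ⊆ J) (b : ℕ → Pt n → K)
    (hb : ∀ c ∈ J, b c ∈ Dg K n e) : hprod p t I b ∈ Dg K n (t * ((p - 1) * e)) := by
  unfold hprod
  have h := Dg_prod (K := K) (n := n) (Finset.range t) (a := (p - 1) * e) (fun s => 1 - (∑ i ∈ I s, b i) ^ (p - 1)) (by
    intro s _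
    exact Submodule.sub_mem _ (Dg_one _) (Dg_pow (Submodule.sum_mem _ fun c hc => hb c (hI s hc)) _))
  rwa [Finset.card_range] at h

private theorem claim [FiniteDimensional K E] {p : ℕ} [Fact p.Prime] [CharP K p] (g : Gm K E n) {kap L : ℕ}
    (hkap : ∀ j < L, Module.finrank K ↥(g.M j ⊓ LinearMap.ker g.J) ≤ kap) {t e : ℕ} (J : Finset ℕ)
    (b : ℕ → Pt n → K) (hb : ∀ c ∈ J, b c ∈ Dg K n e) (h01 : ∀ c ∈ J, Bv (b c)) (hL : (t + 2) * (p * e) ≤ L) (k : ℕ)
    (hk : k ≤ t) : ∃ I : ℕ → Finset ℕ, (∀ j, I j ⊆ J) ∧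
      3 ^ k * Module.finrank K (g.M ((t - k) * e)) ≤
        3 ^ k * Module.finrank K (g.gks (k * ((p - 1) * e) + e) (g.M ((t - k) * e)) (hprod p k I b) J b) +
          2 ^ k * Module.finrank K (g.M (t * e)) + 3 ^ k * ((3 * J.card + 2 * p) * (e * kap)) := by
  induction k with
  | zero =>
    refine ⟨fun _ => ∅, fun j => by simp, ?_⟩
    simp only [pow_zero, Nat.sub_zero, one_mul]
    omega
  | succ k ih =>
    obtain ⟨I, hI, hk'⟩ := ih (by omega)
    have hp : 2 ≤ p := (Fact.out : p.Prime).two_le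
    have hH := ghprod_dg (p := p) (t := k) J I hI b hb
    set H := hprod p k I b with hHdef
    have hie : (t - k) * e - e = (t - (k + 1)) * e := by
      have : t - k = (t - (k + 1)) + 1 := by omega
      rw [this, add_mul, one_mul]
      simp
    have hei : e ≤ (t - k) * e := Nat.le_mul_of_pos_left e (by omega)
    -- degree budget
    have hbud0 : (t - k) * e + k * ((p - 1) * e) + (p - 1) * e + e ≤ L := by
      refine le_trans ?_ hL
      have e1 : (t - k) * e + k * ((p - 1) * e) + (p - 1) * e + e = ((t - k) + k * (p - 1) + (p - 1) + 1) * e := by ring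
      have e2 : (t + 2) * (p * e) = ((t + 2) * p) * e := by ring
      rw [e1, e2]
      apply Nat.mul_le_mul_right
      have a1 : t - k ≤ (t - k) * p := Nat.le_mul_of_pos_right _ (by omega)
      have a2 : k * (p - 1) ≤ k * p := Nat.mul_le_mul_left _ (by omega)
      have a3 : (t - k) * p + k * p = t * p := by rw [← add_mul]; congr 1; omega
      have a4 : (t + 2) * p = t * p + 2 * p := by ring
      omega
    have hbud : (t - k) * e + k * ((p - 1) * e) + (p - 1) * e ≤ L := by omega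
    have hbud2 : ((t - k) * e - e) + k * ((p - 1) * e) + 2 * e ≤ L := by
      have h4 : 1 * e ≤ (p - 1) * e := Nat.mul_le_mul_right _ (by omega)
      omega
    obtain ⟨I', hI', hav⟩ := gavg_ex g hkap (g.M ((t - k) * e - e)) le_rfl J b hb h01 hH hbud2
    have hgs := ggate_step (p := p) g hkap hei J I' hI' b hb h01 hH hbud
    -- the new choice
    refine ⟨Function.update I k I', ?_, ?_⟩
    · intro j
      by_cases hj : j = k
      · subst hj; simpa using hI'
      · rw [Function.update_of_ne hj]; exact hI j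
    have hnew : hprod p (k + 1) (Function.update I k I') b = H * (1 - (∑ i ∈ I', b i) ^ (p - 1)) := by
      unfold hprod
      rw [Finset.prod_range_succ, Function.update_self, hHdef]
      congr 1
      unfold hprod
      refine Finset.prod_congr rfl fun j hj => ?_
      rw [Function.update_of_ne (by have := Finset.mem_range.mp hj; omega)]
    rw [hnew, ← hie]
    have hGd : (1 - (∑ i ∈ I', b i) ^ (p - 1)) ∈ Dg K n ((p - 1) * e) :=
      Submodule.sub_mem _ (Dg_one _) (Dg_pow (Submodule.sum_mem _ fun c hc => hb c (hI' hc)) _)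
    have hst := Submodule.finrank_mono (gks_step g (g.M ((t - k) * e - e)) H (1 - (∑ i ∈ I', b i) ^ (p - 1)) J b hb hH hGd)
    have hmo := grk_mono g hkap (a := k * ((p - 1) * e) + (p - 1) * e + e) hei (H * (1 - (∑ i ∈ I', b i) ^ (p - 1))) J b
      (fun c hc => Dg_mul (Dg_mul hH hGd) (hb c hc)) (by omega)
    have e0 : (k + 1) * ((p - 1) * e) + e = k * ((p - 1) * e) + (p - 1) * e + e := by ring
    rw [e0]
    set x1 := Module.finrank K (g.M ((t - k) * e - e))
    set x2 := Module.finrank K ↥(g.gks (k * ((p - 1) * e) + (p - 1) * e + e) (g.M ((t - k) * e - e))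
      (H * (1 - (∑ i ∈ I', b i) ^ (p - 1))) J b)
    set x3 := Module.finrank K ↥(g.gks (k * ((p - 1) * e) + e) (g.M ((t - k) * e - e)) H J b)
    set x4 := Module.finrank K ↥(g.gks (k * ((p - 1) * e) + (p - 1) * e + e) (g.M ((t - k) * e))
      (H * (1 - (∑ i ∈ I', b i) ^ (p - 1))) J b)
    set x5 := Module.finrank K ↥(g.gks (k * ((p - 1) * e) + e) (g.M ((t - k) * e)) H J b)
    set x6 := Module.finrank K ↥(g.gk (k * ((p - 1) * e) + e) (g.M ((t - k) * e - e)) (H * ∑ i ∈ I', b i))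
    set x7 := Module.finrank K (g.M ((t - k) * e))
    set x8 := Module.finrank K (g.M (t * e))
    have e9 : (p - 1) * e * kap + (e * kap) = p * (e * kap) := by
      obtain ⟨p', rfl⟩ : ∃ p', p = p' + 1 := ⟨p - 1, by omega⟩
      simp only [Nat.add_sub_cancel]
      ring
    set ek := e * kap with hek
    set y := J.card * ek with hy
    have e10 : (3 * J.card + 2 * p) * ek = 3 * y + 2 * (p * ek) := by rw [hy]; ring
    rw [e10] at hk' ⊢
    -- hav : 2 x6 ≤ x1 + x3 + y ; hgs : x5 + x1 ≤ x4 + x6 + .. ; hst : x3 ≤ x2 ; hmo : x1 + x4 ≤ x7 + x2 + y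
    have hkey : 3 * x1 + 2 * x5 ≤ 3 * x2 + 2 * x7 + (3 * y + 2 * (p * ek)) := by omega
    have e3 : 3 ^ (k + 1) * x1 = 3 ^ k * (3 * x1) := by ring
    have e4 : 3 ^ (k + 1) * x2 = 3 ^ k * (3 * x2) := by ring
    have e5 : 2 ^ (k + 1) * x8 = 2 * (2 ^ k * x8) := by ring
    have e6 : 3 ^ (k + 1) * (3 * y + 2 * (p * ek)) = 3 * (3 ^ k * (3 * y + 2 * (p * ek))) := by ring
    rw [e3, e4, e5, e6]
    have h6 := Nat.mul_le_mul_left (3 ^ k) hkey
    have e7 : 3 ^ k * (3 * x1 + 2 * x5) = 3 ^ k * (3 * x1) + 2 * (3 ^ k * x5) := by ring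
    have e8 : 3 ^ k * (3 * x2 + 2 * x7 + (3 * y + 2 * (p * ek))) =
      3 ^ k * (3 * x2) + 2 * (3 ^ k * x7) + 3 ^ k * (3 * y + 2 * (p * ek)) := by ring
    rw [e7, e8] at h6
    omega

/-- The gate lemma for graded modules: `J` is the set of indices (one for each different member function), `kap` bounds the
kernels of the multiplication on the levels below `L`. -/
theorem _root_.PPh.ggate [FiniteDimensional K E] {p : ℕ} [Fact p.Prime] [CharP K p] (g : Gm K E n) {kap L : ℕ}
    (hkap : ∀ j < L, Module.finrank K ↥(g.M j ⊓ LinearMap.ker g.J) ≤ kap) {t e : ℕ} (J : Finset ℕ)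
    (b : ℕ → Pt n → K) (hb : ∀ c ∈ J, b c ∈ Dg K n e) (h01 : ∀ c ∈ J, Bv (b c)) (hL : (t + 2) * (p * e) ≤ L) :
    ∃ I : ℕ → Finset ℕ, (∀ j, I j ⊆ J) ∧ hprod p t I b ∈ Dg K n (t * ((p - 1) * e)) ∧
      3 ^ t * Module.finrank K (g.M 0) ≤
        3 ^ t * Module.finrank K (g.gks (t * ((p - 1) * e) + e) (g.M 0) (hprod p t I b) J b) +
          2 ^ t * Module.finrank K (g.M (t * e)) + 3 ^ t * ((3 * J.card + 2 * p) * (e * kap)) := by
  obtain ⟨I, hI, h⟩ := claim (p := p) g hkap J b hb h01 hL t le_rfl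
  refine ⟨I, hI, ghprod_dg J I hI b hb, ?_⟩
  rw [Nat.sub_self, zero_mul] at h
  exact h

end PPh.GA
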